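import Pool.Agent.Helper799.BallPoly

set_option autoImplicit false

namespace Pool.Agent.Results.MP_515f4e_co.AlmostExponentialGrowth

/-- For all `lam > 1` and `c > 0` there is `α > 0` such that in every infinite connected bounded
degree graph whose maximal ball growth lies between `lam ^ n / C` and `C * n ^ α * lam ^ n`, some
ball fails to be a `c`-expander. -/
theorem result : ∀ lam c : ℝ, 1 < lam → 0 < c → ∃ α : ℝ, 0 < α ∧
    ∀ (V : Type) (G : SimpleGraph V), Infinite V → G.Connected →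
      (∃ D : ℕ, ∀ v : V, (G.neighborSet v).encard ≤ (D : ℕ∞)) →
      ∀ C : ℝ,
        (∀ n : ℕ, ∃ v : V, lam ^ n ≤ C * ({w : V | G.dist v w ≤ n}.ncard : ℝ)) →
        (∀ n : ℕ, 1 ≤ n → ∀ v : V,
          ({w : V | G.dist v w ≤ n}.ncard : ℝ) ≤ C * (n : ℝ) ^ α * lam ^ n) →
        ∃ (v : V) (r : ℕ) (S : Finset V),
          (∀ w ∈ S, G.dist v w ≤ r) ∧ 0 < S.card ∧
          2 * S.card ≤ {w : V | G.dist v w ≤ r}.ncard ∧
          ({w : V | G.dist v w ≤ r ∧ w ∉ S ∧ ∃ s ∈ S, G.Adj s w}.ncard : ℝ) ≤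
            c * (S.card : ℝ) := by
  intro lam c hlam hc
  obtain ⟨α, hα, H⟩ := Pool.Helper799.Balls.poly lam c hlam hc
  refine ⟨α, hα, ?_⟩
  intro V G _ hG ⟨D, hD⟩ C hlow hup
  classical
  have hfin : ∀ v, (G.neighborSet v).Finite := by
    intro v
    rw [← Set.encard_lt_top_iff]
    exact lt_of_le_of_lt (hD v) (by simp)
  by_contra hcon
  push Not at hcon
  apply H V (Classical.decEq V) G (Pool.Helper799.Balls.bl G hG hfin)
    (Pool.Helper799.Balls.mem_bl G hG hfin) hG C
  · intro n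
    obtain ⟨v, hv⟩ := hlow n
    exact ⟨v, by rw [Pool.Helper799.Balls.card_bl]; exact hv⟩
  · intro n hn v
    rw [Pool.Helper799.Balls.card_bl]
    exact hup n hn v
  · intro r w S hS hne hcard
    rw [Pool.Helper799.Balls.card_bl] at hcard
    have h := hcon w r S (fun x hx => (Pool.Helper799.Balls.mem_bl G hG hfin w r x).1 (hS hx))
      (Finset.card_pos.mpr hne) hcard
    refine ⟨(Pool.Helper799.Balls.bl G hG hfin w r).filter
      (fun u => u ∉ S ∧ ∃ s ∈ S, G.Adj s u), Finset.filter_subset _ _, ?_, ?_, ?_⟩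
    · rw [Finset.disjoint_left]
      intro x hx hx'
      exact (Finset.mem_filter.mp hx').2.1 hx
    · intro u hu
      exact (Finset.mem_filter.mp hu).2.2
    · refine h.le.trans ?_
      rw [← Set.ncard_coe_finset]
      apply le_of_eq
      congr 2
      ext u
      simp only [Set.mem_setOf_eq, Finset.coe_filter, Pool.Helper799.Balls.mem_bl]

end Pool.Agent.Results.MP_515f4e_co.AlmostExponentialGrowth
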